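import Mathlib

/-!
# SX-EXH: the numbers
-/

namespace Pool.Agent.Helper34.SX.EXN

/-- the numbers `c_m` -/
noncomputable def c (A : ℝ) : ℕ → ℝ
  | 0 => 0
  | m + 1 => (1 + c A m) / (2 * A)

theorem A_ge (k : ℕ) (hk : 2 ≤ k) : 7 / 8 ≤ (1 : ℝ) - 1 / ((k : ℝ) * 2 ^ k) := by
  have h1 : (2 : ℝ) ≤ k := by exact_mod_cast hk
  have h2 : (4 : ℝ) ≤ 2 ^ k := by
    calc (4 : ℝ) = 2 ^ 2 := by norm_num
      _ ≤ 2 ^ k := pow_le_pow_right₀ (by norm_num) hk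
  have h3 : (8 : ℝ) ≤ (k : ℝ) * 2 ^ k := by nlinarith
  have h4 : 1 / ((k : ℝ) * 2 ^ k) ≤ 1 / 8 := one_div_le_one_div_of_le (by norm_num) h3
  linarith

theorem A_le (k : ℕ) : (1 : ℝ) - 1 / ((k : ℝ) * 2 ^ k) ≤ 1 := by
  have : (0 : ℝ) ≤ 1 / ((k : ℝ) * 2 ^ k) := by positivity
  linarith

theorem A_pow (k : ℕ) (hk : 2 ≤ k) :
    1 - 1 / 2 ^ k ≤ ((1 : ℝ) - 1 / ((k : ℝ) * 2 ^ k)) ^ k := by
  have h := one_add_mul_le_pow (a := -(1 / ((k : ℝ) * 2 ^ k))) (by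
    have := A_ge k hk
    linarith) k
  have hk0 : (k : ℝ) ≠ 0 := by
    have : 0 < k := by omega
    positivity
  have h1 : 1 + (k : ℝ) * -(1 / ((k : ℝ) * 2 ^ k)) = 1 - 1 / 2 ^ k := by
    field_simp
    ring
  rw [h1] at h
  have h2 : (1 : ℝ) + -(1 / ((k : ℝ) * 2 ^ k)) = 1 - 1 / ((k : ℝ) * 2 ^ k) := by ring
  rw [h2] at h
  exact h

theorem c_nonneg (A : ℝ) (hA : 0 < A) (m : ℕ) : 0 ≤ c A m := by
  induction m with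
  | zero => simp [c]
  | succ m ih =>
    rw [c]
    positivity

theorem c_step (A : ℝ) (hA : 0 < A) (m : ℕ) : (1 + c A m) / 2 = A * c A (m + 1) := by
  rw [c]
  field_simp

theorem c_half (A : ℝ) (hA : 0 < A) (hA1 : A ≤ 1) (m : ℕ) (hm : 1 ≤ m) : 1 / 2 ≤ c A m := by
  obtain ⟨m, rfl⟩ : ∃ m', m = m' + 1 := ⟨m - 1, by omega⟩
  rw [c, div_le_div_iff₀ (by norm_num) (by positivity)]
  have := c_nonneg A hA m
  nlinarith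

theorem c_bd (A : ℝ) (hA : 0 < A) (hA1 : A ≤ 1) (m : ℕ) : A ^ m * c A m ≤ 1 - 1 / 2 ^ m := by
  induction m with
  | zero => simp [c]
  | succ m ih =>
    have h1 : A ^ (m + 1) * c A (m + 1) = (A ^ m + A ^ m * c A m) / 2 := by
      rw [pow_succ, mul_assoc, ← c_step A hA m]
      ring
    rw [h1]
    have h2 : A ^ m ≤ 1 := pow_le_one₀ hA.le hA1
    have h3 : (1 : ℝ) - 1 / 2 ^ (m + 1) = (1 + (1 - 1 / 2 ^ m)) / 2 := by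
      rw [pow_succ]
      field_simp
      ring
    rw [h3]
    linarith

theorem c_le (k : ℕ) (hk : 2 ≤ k) (m : ℕ) (hm : m ≤ k) :
    c (1 - 1 / ((k : ℝ) * 2 ^ k)) m ≤ 1 := by
  obtain ⟨A, hAd⟩ : ∃ A : ℝ, A = 1 - 1 / ((k : ℝ) * 2 ^ k) := ⟨_, rfl⟩
  have h1 := A_ge k hk
  have h2 := A_le k
  have h3 := A_pow k hk
  rw [← hAd] at h1 h2 h3 ⊢
  have hA : 0 < A := by linarith
  have h4 := c_bd A hA h2 m
  have h5 : A ^ k ≤ A ^ m := pow_le_pow_of_le_one hA.le h2 hm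
  have h6 : (1 : ℝ) - 1 / 2 ^ m ≤ 1 - 1 / 2 ^ k := by
    have : (1 : ℝ) / 2 ^ k ≤ 1 / 2 ^ m :=
      one_div_le_one_div_of_le (by positivity) (pow_le_pow_right₀ (by norm_num) hm)
    linarith
  have h7 : 0 < A ^ m := by positivity
  have h8 : A ^ m * c A m ≤ A ^ m * 1 := by linarith
  exact le_of_mul_le_mul_left h8 h7

/-- The numbers for EXH: `A = 1 - 1/(k 2^k)`. -/
theorem nums (k : ℕ) (hk : 2 ≤ k) : ∃ c : ℕ → ℝ, c 0 = 0 ∧ (∀ m, 0 ≤ c m) ∧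
    (∀ m, (1 + c m) / 2 = (1 - 1 / ((k : ℝ) * 2 ^ k)) * c (m + 1)) ∧
    (∀ m, m ≤ k → c m ≤ 1) ∧ (∀ m, 1 ≤ m → 1 / 2 ≤ c m) ∧
    7 / 8 ≤ (1 : ℝ) - 1 / ((k : ℝ) * 2 ^ k) ∧ (1 : ℝ) - 1 / ((k : ℝ) * 2 ^ k) ≤ 1 := by
  have h1 := A_ge k hk
  have h2 := A_le k
  have hA : 0 < (1 : ℝ) - 1 / ((k : ℝ) * 2 ^ k) := by linarith
  exact ⟨c (1 - 1 / ((k : ℝ) * 2 ^ k)), rfl, c_nonneg _ hA, c_step _ hA, c_le k hk,
    c_half _ hA h2, h1, h2⟩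

end Pool.Agent.Helper34.SX.EXN
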