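import Pool.Agent.Helper52.SX.Goals

/-!
# SX-SET: one step of the algorithm for tuples
-/

namespace Pool.Agent.Helper34.SX

open Pool.Agent.Helper65.CS Pool.Agent.Helper78.DT Pool.Agent.Helper52.SX

theorem lossT_mono (r W b u0 c1 M n N l : ℕ) (hn : n ≤ N) :
    lossT r W b u0 c1 M n l ≤ lossT r W b u0 c1 M N l := by
  have hn' : (n : ℝ) ≤ N := by exact_mod_cast hn
  unfold lossT
  have h2 : (2 : ℝ) ^ (r * c1) * ((n : ℝ) / M) ≤ 2 ^ (r * c1) * ((N : ℝ) / M) :=
    mul_le_mul_of_nonneg_left (div_le_div_of_nonneg_right hn' (by positivity)) (by positivity)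
  linarith

theorem mem_al {n v : ℕ} {s : List (ℕ × Bool)} :
    v ∈ al n s ↔ v < n ∧ (v, true) ∉ s ∧ (v, false) ∉ s := by
  unfold al
  rw [List.mem_filter, List.mem_range]
  simp

theorem not_mem_of_mem_al {n v : ℕ} {s : List (ℕ × Bool)} (h : v ∈ al n s) (b : Bool) :
    (v, b) ∉ s := by
  cases b
  · exact (mem_al.mp h).2.2
  · exact (mem_al.mp h).2.1

theorem ovr_append {n : ℕ} {e s : List (ℕ × Bool)} (h : ∀ p ∈ e, p.1 ∈ al n s)
    (x : Fin n → Bool) : ovr (e ++ s) x = ovr s (ovr e x) := by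
  funext v
  unfold ovr
  simp only [List.mem_append]
  by_cases h1 : ((v : ℕ), true) ∈ s
  · simp [h1]
  · by_cases h2 : ((v : ℕ), false) ∈ s
    · have h3 : ((v : ℕ), true) ∉ e := fun h4 => not_mem_of_mem_al (h _ h4) false h2
      simp [h1, h2, h3]
    · simp [h1, h2]

theorem invT (hR : RttStmt) (n W l : ℕ) (z : Tup) (t : List (ℕ × Bool) × Tup)
    (e : List (ℕ × Bool)) (ht : InvT n W l z t) (he : (e.map Prod.fst).Nodup)
    (hal : ∀ p ∈ e, p.1 ∈ al n t.1) : InvT n W l z (e ++ t.1, rstT e t.2) := by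
  obtain ⟨t1, t2, t3, t4, t5⟩ := ht
  have hen : ∀ p ∈ e, p.1 < n := fun p hp => (mem_al.mp (hal p hp)).1
  have hr := hR.1 n W l e t.2 t3
  refine ⟨?_, ?_, hr.1, hr.2.trans t4, ?_⟩
  · rw [List.map_append, List.nodup_append]
    refine ⟨he, t1, ?_⟩
    intro a ha b hb hab
    rw [List.mem_map] at ha hb
    obtain ⟨p, hp, rfl⟩ := ha
    obtain ⟨q, hq, rfl⟩ := hb
    exact not_mem_of_mem_al (hal p hp) q.2 (by rw [hab]; exact hq)
  · intro p hp
    rcases List.mem_append.mp hp with h | h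
    · exact hen p h
    · exact t2 p h
  · intro x
    show tv x (rstT e t.2) = tv (ovr (e ++ t.1) x) z
    rw [ovr_append hal, hR.2 n e t.2 x he hen, t5]

/-- **Packet SET.** -/
theorem set (hP : PgtStmt) (hR : RttStmt) (hC : CndStmt) (hA : AlnStmt) : SetStmt := by
  intro ex k g hg n N W l b u0 c1 M z t hInv hz hM hc1 hb hNM hnN hloss
  have hUpos : (0 : ℝ) < (lg N : ℝ) ^ k := by
    have : (0 : ℝ) < (lg N : ℝ) := by
      have h2 : 0 < lg N := by
        unfold lg
        omega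
      exact_mod_cast h2
    positivity
  have hNF : NFT n W l t.2 := hInv.2.2.1
  have hlen : t.2.1.length = z.1.length := hInv.2.2.2.1
  have hg1 := abs_le.1 (hg n W l t.2 N hNF (by rw [hlen]; exact hz))
  rcases hfind : (cands b M n t.1).find?
      (fun e => decide (g (n, t.2, N) ≤ g (n, rstT e t.2, N) + 3)) with _ | e
  · -- no candidate
    have hstep : stepT g b M n N t = t := by
      unfold stepT
      rw [hfind]
    rw [hstep]
    have hnone := List.find?_eq_none.1 hfind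
    have hal : al n t.1 = [] := by
      by_contra hne
      have hnM : (n : ℝ) / M ≤ (1 / 2 ^ b) ^ (c1 + u0) := by
        refine le_trans (div_le_div_of_nonneg_right ?_ (by positivity)) hNM
        exact_mod_cast hnN
      obtain ⟨e, he, hfe⟩ := hP n W l b u0 c1 M t.1 t.2 hNF hM hc1 hb hnM hne
      rw [hlen] at hfe
      have hm := lossT_mono z.1.length W b u0 c1 M n N l hnN
      have hRe := hR.1 n W l e t.2 hNF
      have hg2 := abs_le.1 (hg n W l (rstT e t.2) N hRe.1 (by rw [hRe.2, hlen]; exact hz))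
      have h3 : (g (n, t.2, N) : ℝ) / (lg N : ℝ) ^ k ≤
          ((g (n, rstT e t.2, N) : ℝ) + 3) / (lg N : ℝ) ^ k := by
        have : ((g (n, rstT e t.2, N) : ℝ) + 3) / (lg N : ℝ) ^ k =
            (g (n, rstT e t.2, N) : ℝ) / (lg N : ℝ) ^ k + 3 * (1 / (lg N : ℝ) ^ k) := by
          ring
        rw [this]
        linarith [hg1.2, hg2.1]
      have h4 : (g (n, t.2, N) : ℝ) ≤ (g (n, rstT e t.2, N) : ℝ) + 3 :=
        (div_le_div_iff_of_pos_right hUpos).1 h3
      have h5 : g (n, t.2, N) ≤ g (n, rstT e t.2, N) + 3 := by exact_mod_cast h4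
      have h6 := hnone e he
      simp only [decide_eq_true_eq] at h6
      exact h6 h5
    refine ⟨hInv, ?_, ?_⟩
    · have : 0 ≤ 5 / (lg N : ℝ) ^ k := by positivity
      linarith
    · rw [hal]
      simp
  · have hstep : stepT g b M n N t = (e ++ t.1, rstT e t.2) := by
      unfold stepT
      rw [hfind]
    rw [hstep]
    have hmem : e ∈ cands b M n t.1 := List.mem_of_find?_eq_some hfind
    have hp := List.find?_some hfind
    simp only [decide_eq_true_eq] at hp
    obtain ⟨hnd, hal, h1, hlen2⟩ := (hC b M n t.1).2.2.1 e hmem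
    have hR1 := hR.1 n W l e t.2 hNF
    have hg2 := abs_le.1 (hg n W l (rstT e t.2) N hR1.1 (by rw [hR1.2, hlen]; exact hz))
    refine ⟨invT hR n W l z t e hInv hnd hal, ?_, ?_⟩
    · have h4 : (g (n, t.2, N) : ℝ) ≤ (g (n, rstT e t.2, N) : ℝ) + 3 := by exact_mod_cast hp
      have h5 := div_le_div_of_nonneg_right h4 hUpos.le
      have h6 : ((g (n, rstT e t.2, N) : ℝ) + 3) / (lg N : ℝ) ^ k =
          (g (n, rstT e t.2, N) : ℝ) / (lg N : ℝ) ^ k + 3 * (1 / (lg N : ℝ) ^ k) := by
        ring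
      have h7 : 5 / (lg N : ℝ) ^ k = 5 * (1 / (lg N : ℝ) ^ k) := by ring
      simp only
      rw [h7]
      linarith [hg1.1, hg2.2]
    · have h8 := hA n e t.1 hnd hal
      simp only
      nlinarith

end Pool.Agent.Helper34.SX
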